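import Mathlib

set_option autoImplicit false

open Cardinal Set

namespace Pool.Agent.H849Z.TkDefs

/-- `U` is Tukey-top: there are sets `A i ∈ U`, indexed by a type of cardinality continuum, such
that no countably infinite subfamily has its intersection in `U`. -/
def TukeyTop (U : Ultrafilter ℕ) : Prop :=
  ∃ (ι : Type) (A : ι → Set ℕ), #ι = 𝔠 ∧ (∀ i, A i ∈ U) ∧
    ∀ I : Set ι, I.Countable → I.Infinite → (⋂ i ∈ I, A i) ∉ U

/-- The guessing principle diamond-minus for `U`. -/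
def DiamondMinus (U : Ultrafilter ℕ) : Prop :=
  ∃ (f π : ℕ → ℕ) (A : ℕ → Set (Set ℕ)),
    (∀ n, (∀ a ∈ A n, a ⊆ Iio (f n)) ∧ (A n).encard ≤ π n) ∧
    (∀ g : ℕ → ℕ, {n | g (π n) < f n} ∈ U) ∧
    #{X : Set ℕ | {n | X ∩ Iio (f n) ∈ A n} ∈ U} = 𝔠

end Pool.Agent.H849Z.TkDefs
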