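import Mathlib

set_option autoImplicit false
set_option linter.unusedSectionVars false
set_option linter.unusedVariables false

/-! Thinning of uncountable families and a Cantor scheme of finite samples. -/

open Set

namespace Pool.Agent.H849Z.Tk

theorem thin_one {Ξ Y : Type} (T : Set Ξ) (hT : ¬ T.Countable) (x : Ξ → Y) :
    ∃ T' ⊆ T, ¬ T'.Countable ∧ ((∃ y, ∀ ξ ∈ T', x ξ = y) ∨ InjOn x T') := by
  classical
  by_cases h : ∃ y, ¬ {ξ ∈ T | x ξ = y}.Countable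
  · obtain ⟨y, hy⟩ := h
    exact ⟨_, fun ξ hξ => hξ.1, hy, Or.inl ⟨y, fun ξ hξ => hξ.2⟩⟩
  · push Not at h
    obtain ⟨T', hT', hbij⟩ := exists_subset_bijOn T x
    refine ⟨T', hT', fun hc => hT ?_, Or.inr hbij.injOn⟩
    have h1 : (x '' T).Countable := by
      rw [← hbij.image_eq]
      exact hc.image x
    refine (h1.biUnion fun y _ => h y).mono fun ξ hξ => ?_
    exact mem_biUnion (mem_image_of_mem x hξ) ⟨hξ, rfl⟩

theorem thin {Ξ Y ι : Type} (s : Finset ι) (T : Set Ξ) (hT : ¬ T.Countable) (x : ι → Ξ → Y) :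
    ∃ T' ⊆ T, ¬ T'.Countable ∧ ∀ i ∈ s, (∃ y, ∀ ξ ∈ T', x i ξ = y) ∨ InjOn (x i) T' := by
  classical
  induction s using Finset.induction_on with
  | empty => exact ⟨T, Subset.rfl, hT, fun i hi => absurd hi (Finset.notMem_empty i)⟩
  | insert a s ha ih =>
    obtain ⟨T1, h1, h2, h3⟩ := ih
    obtain ⟨T2, h4, h5, h6⟩ := thin_one T1 h2 (x a)
    refine ⟨T2, h4.trans h1, h5, fun i hi => ?_⟩
    rcases Finset.mem_insert.mp hi with rfl | hi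
    · exact h6
    · rcases h3 i hi with ⟨y, hy⟩ | hy
      · exact Or.inl ⟨y, fun ξ hξ => hy ξ (h4 hξ)⟩
      · exact Or.inr (hy.mono h4)

theorem split {Ξ ι : Type} (J : Finset ι) (T : Set Ξ) (hT : ¬ T.Countable) (x : ι → Ξ → Set ℕ)
    (hx : ∀ i ∈ J, InjOn (x i) T) (r : Ξ → ℕ) :
    ∃ T0 ⊆ T, ∃ T1 ⊆ T, ¬ T0.Countable ∧ ¬ T1.Countable ∧ ∃ l v : ℕ,
      (∀ ξ ∈ T0, r ξ ≤ v) ∧ (∀ ξ ∈ T1, r ξ ≤ v) ∧
      ∀ i ∈ J, ∀ ξ ∈ T0, ∀ ξ' ∈ T1, ∀ L, l ≤ L → x i ξ ∩ Iio L ≠ x i ξ' ∩ Iio L := by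
  classical
  have h1 : ∃ v, ¬ {ξ ∈ T | r ξ ≤ v}.Countable := by
    by_contra hc
    push Not at hc
    refine hT ((countable_iUnion hc).mono fun ξ hξ => ?_)
    exact mem_iUnion.mpr ⟨r ξ, hξ, le_rfl⟩
  obtain ⟨v, hv⟩ := h1
  set T' := {ξ ∈ T | r ξ ≤ v} with hT'
  let D : ℕ × (J → Finset ℕ) → Set Ξ := fun p =>
    {ξ ∈ T' | ∀ i : J, x i ξ ∩ Iio p.1 = (p.2 i : Set ℕ)}
  let Bad : Set Ξ := ⋃ p : {p : ℕ × (J → Finset ℕ) // (D p).Countable}, D p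
  have hBad : Bad.Countable := countable_iUnion fun p => p.2
  have h2 : ¬ (T' \ Bad).Countable := by
    intro hc
    refine hv ((hc.union hBad).mono fun ξ hξ => ?_)
    by_cases hb : ξ ∈ Bad
    · exact Or.inr hb
    · exact Or.inl ⟨hξ, hb⟩
  have h3 : (T' \ Bad).Nontrivial := by
    by_contra hc
    rw [not_nontrivial_iff] at hc
    exact h2 hc.countable
  obtain ⟨a, ha, b, hb, hab⟩ := h3
  have h4 : ∀ i : J, ∃ n, ¬ (n ∈ x i a ↔ n ∈ x i b) := by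
    intro i
    by_contra hc
    push Not at hc
    exact hab (hx i i.2 ha.1.1 hb.1.1 (Set.ext hc))
  choose n hn using h4
  let l : ℕ := Finset.univ.sup n + 1
  have hl : ∀ i : J, n i < l := fun i =>
    Nat.lt_succ_of_le (Finset.le_sup (f := n) (Finset.mem_univ i))
  have hfin : ∀ (S : Set ℕ), (S ∩ Iio l).Finite := fun S => (finite_Iio l).subset inter_subset_right
  let w : Ξ → J → Finset ℕ := fun ξ i => (hfin (x i ξ)).toFinset
  have hmem : ∀ ξ ∈ T', ξ ∈ D (l, w ξ) := fun ξ hξ =>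
    ⟨hξ, fun i => (Finite.coe_toFinset _).symm⟩
  have hunc : ∀ ξ ∈ T' \ Bad, ¬ (D (l, w ξ)).Countable := by
    intro ξ hξ hc
    exact hξ.2 (mem_iUnion.mpr ⟨⟨_, hc⟩, hmem ξ hξ.1⟩)
  refine ⟨D (l, w a), fun ξ hξ => hξ.1.1, D (l, w b), fun ξ hξ => hξ.1.1, hunc a ha, hunc b hb,
    l, v, fun ξ hξ => hξ.1.2, fun ξ hξ => hξ.1.2, ?_⟩
  intro i hi ξ hξ ξ' hξ' L hL heq
  have e1 : x i ξ ∩ Iio l = x i a ∩ Iio l :=
    (hξ.2 ⟨i, hi⟩).trans (Finite.coe_toFinset _)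
  have e2 : x i ξ' ∩ Iio l = x i b ∩ Iio l :=
    (hξ'.2 ⟨i, hi⟩).trans (Finite.coe_toFinset _)
  apply hn ⟨i, hi⟩
  have k := hl ⟨i, hi⟩
  have k2 : n ⟨i, hi⟩ < L := lt_of_lt_of_le k hL
  have a1 := Set.ext_iff.mp e1 (n ⟨i, hi⟩)
  have a2 := Set.ext_iff.mp e2 (n ⟨i, hi⟩)
  have a3 := Set.ext_iff.mp heq (n ⟨i, hi⟩)
  simp only [mem_inter_iff, mem_Iio, k, k2, and_true] at a1 a2 a3
  exact a1.symm.trans (a3.trans a2)

/-- the samples -/
def Phi {Ξ U : Type} [DecidableEq Ξ] (pt : U → Ξ) (s0 s1 : U → ℕ → U) : ℕ → U → ℕ → Finset Ξ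
  | 0, t, _ => {pt t}
  | j + 1, t, a => Phi pt s0 s1 j (s0 t a) (a + 1) ∪ Phi pt s0 s1 j (s1 t a) (a + 1)

/-- maxima over the levels of the scheme -/
def Mx {U : Type} (b : U → ℕ → ℕ) (s0 s1 : U → ℕ → U) : ℕ → U → ℕ → ℕ
  | 0, t, a => b t a
  | e + 1, t, a => max (b t a) (max (Mx b s0 s1 e (s0 t a) (a + 1)) (Mx b s0 s1 e (s1 t a) (a + 1)))

open Classical in
theorem tree {Ξ ι : Type} (J : Finset ι) (hJ : J.Nonempty) (T : Set Ξ) (hT : ¬ T.Countable)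
    (x : ι → Ξ → Set ℕ) (hx : ∀ i ∈ J, InjOn (x i) T) (r : Ξ → ℕ → ℕ) :
    ∃ (Φ : ℕ → Finset Ξ) (l R : ℕ → ℕ), (∀ j, ∀ ξ ∈ Φ j, ξ ∈ T) ∧ (∀ j, (Φ j).card = 2 ^ j) ∧
      (∀ j c, c < j → ∀ ξ ∈ Φ j, r ξ c ≤ R c) ∧
      ∀ e j L, e ≤ j → l e ≤ L → ∀ i ∈ J, ∀ u : Set ℕ,
        ((Φ j).filter fun ξ => x i ξ ∩ Iio L = u).card * 2 ^ e ≤ 2 ^ j := by
  let U := {T' : Set Ξ // T' ⊆ T ∧ ¬ T'.Countable}
  have hs : ∀ (t : U) (a : ℕ), ∃ (t0 t1 : U) (l v : ℕ), t0.1 ⊆ t.1 ∧ t1.1 ⊆ t.1 ∧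
      (∀ ξ ∈ t0.1, r ξ a ≤ v) ∧ (∀ ξ ∈ t1.1, r ξ a ≤ v) ∧
      ∀ i ∈ J, ∀ ξ ∈ t0.1, ∀ ξ' ∈ t1.1, ∀ L, l ≤ L → x i ξ ∩ Iio L ≠ x i ξ' ∩ Iio L := by
    intro t a
    obtain ⟨T0, h0, T1, h1, h2, h3, l, v, h4⟩ :=
      split J t.1 t.2.2 x (fun i hi => (hx i hi).mono t.2.1) (fun ξ => r ξ a)
    exact ⟨⟨T0, h0.trans t.2.1, h2⟩, ⟨T1, h1.trans t.2.1, h3⟩, l, v, h0, h1, h4⟩
  choose s0 s1 l0 v0 h0 h1 h2 h3 h4 using hs
  have hp : ∀ t : U, ∃ ξ, ξ ∈ t.1 := by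
    intro t
    by_contra hc
    push Not at hc
    exact t.2.2 (by rw [eq_empty_of_forall_notMem hc]; exact countable_empty)
  choose pt hpt using hp
  have a1 : ∀ j t a, ∀ ξ ∈ Phi pt s0 s1 j t a, ξ ∈ t.1 := by
    intro j
    induction j with
    | zero =>
      intro t a ξ hξ
      rw [Phi, Finset.mem_singleton] at hξ
      rw [hξ]
      exact hpt t
    | succ j ih =>
      intro t a ξ hξ
      rw [Phi, Finset.mem_union] at hξ
      rcases hξ with hξ | hξ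
      · exact h0 t a (ih _ _ ξ hξ)
      · exact h1 t a (ih _ _ ξ hξ)
  have a2 : ∀ j t a, (Phi pt s0 s1 j t a).card = 2 ^ j := by
    intro j
    induction j with
    | zero => intro t a; rw [Phi]; simp
    | succ j ih =>
      intro t a
      rw [Phi, Finset.card_union_of_disjoint, ih, ih, pow_succ, mul_two]
      rw [Finset.disjoint_left]
      intro ξ hξ hξ'
      obtain ⟨i, hi⟩ := hJ
      exact h4 t a i hi ξ (a1 _ _ _ ξ hξ) ξ (a1 _ _ _ ξ hξ') _ le_rfl rfl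
  have a3 : ∀ c j t a, c < j → ∀ ξ ∈ Phi pt s0 s1 j t a, r ξ (a + c) ≤ Mx v0 s0 s1 c t a := by
    intro c
    induction c with
    | zero =>
      intro j t a hj ξ hξ
      obtain ⟨j, rfl⟩ := Nat.exists_eq_succ_of_ne_zero hj.ne'
      rw [Phi, Finset.mem_union] at hξ
      rw [Mx]
      rcases hξ with hξ | hξ
      · exact h2 t a ξ (a1 _ _ _ ξ hξ)
      · exact h3 t a ξ (a1 _ _ _ ξ hξ)
    | succ c ih =>
      intro j t a hj ξ hξ
      obtain ⟨j, rfl⟩ := Nat.exists_eq_succ_of_ne_zero (Nat.zero_lt_of_lt hj).ne'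
      rw [Phi, Finset.mem_union] at hξ
      rw [Mx, show a + (c + 1) = a + 1 + c by ring]
      rcases hξ with hξ | hξ
      · exact (ih j _ _ (Nat.lt_of_succ_lt_succ hj) ξ hξ).trans
          ((le_max_left _ _).trans (le_max_right _ _))
      · exact (ih j _ _ (Nat.lt_of_succ_lt_succ hj) ξ hξ).trans
          ((le_max_right _ _).trans (le_max_right _ _))
  have b0 : ∀ e t a, l0 t a ≤ Mx l0 s0 s1 e t a := by
    intro e t a
    cases e with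
    | zero => rw [Mx]
    | succ e => rw [Mx]; exact le_max_left _ _
  have a4 : ∀ e j t a L, e ≤ j → Mx l0 s0 s1 e t a ≤ L → ∀ i ∈ J, ∀ u : Set ℕ,
      ((Phi pt s0 s1 j t a).filter fun ξ => x i ξ ∩ Iio L = u).card * 2 ^ e ≤ 2 ^ j := by
    intro e
    induction e with
    | zero =>
      intro j t a L _ _ i _ u
      rw [pow_zero, mul_one, ← a2 j t a]
      exact Finset.card_filter_le _ _
    | succ e ih =>
      intro j t a L hj hL i hi u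
      obtain ⟨j, rfl⟩ := Nat.exists_eq_succ_of_ne_zero (Nat.zero_lt_of_lt hj).ne'
      rw [Mx] at hL
      have k0 : l0 t a ≤ L := (le_max_left _ _).trans hL
      have k1 := ih j (s0 t a) (a + 1) L (Nat.le_of_succ_le_succ hj)
        ((le_max_left _ _).trans ((le_max_right _ _).trans hL)) i hi u
      have k2 := ih j (s1 t a) (a + 1) L (Nat.le_of_succ_le_succ hj)
        ((le_max_right _ _).trans ((le_max_right _ _).trans hL)) i hi u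
      rw [Phi, Finset.filter_union]
      by_cases hc : ((Phi pt s0 s1 j (s0 t a) (a + 1)).filter fun ξ => x i ξ ∩ Iio L = u) = ∅
      · rw [hc, Finset.empty_union, pow_succ, pow_succ, ← mul_assoc]
        exact Nat.mul_le_mul_right 2 k2
      · obtain ⟨ξ, hξ⟩ := Finset.nonempty_iff_ne_empty.mpr hc
        rw [Finset.mem_filter] at hξ
        have hc2 : ((Phi pt s0 s1 j (s1 t a) (a + 1)).filter fun ξ => x i ξ ∩ Iio L = u) = ∅ := by
          rw [Finset.filter_eq_empty_iff]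
          intro ξ' hξ' he
          exact h4 t a i hi ξ (a1 _ _ _ ξ hξ.1) ξ' (a1 _ _ _ ξ' hξ') L k0 (hξ.2.trans he.symm)
        rw [hc2, Finset.union_empty, pow_succ, pow_succ, ← mul_assoc]
        exact Nat.mul_le_mul_right 2 k1
  let t0 : U := ⟨T, Subset.rfl, hT⟩
  refine ⟨fun j => Phi pt s0 s1 j t0 0, fun e => Mx l0 s0 s1 e t0 0, fun c => Mx v0 s0 s1 c t0 0,
    fun j ξ hξ => a1 j t0 0 ξ hξ, fun j => a2 j t0 0, fun j c hc ξ hξ => ?_,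
    fun e j L he hL i hi u => a4 e j t0 0 L he hL i hi u⟩
  have := a3 c j t0 0 hc ξ hξ
  rwa [zero_add] at this

end Pool.Agent.H849Z.Tk
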