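import Mathlib
import Pool.Agent.H849Z.Tk.Defs
import Pool.Agent.H849Z.Tk.Tree

set_option autoImplicit false
set_option linter.unusedSectionVars false
set_option linter.unusedVariables false

/-! The ideal of null sets (the finite probability spaces and the independent family are those of
`Pool.Agent.H647Z.TukeyMain`) and the averaging lemma. -/

open Cardinal Set Filter Topology

namespace Pool.Agent.H849Z.Tk

open Pool.Agent.H849Z.TkDefs

/-- The `n`-th finite probability space. -/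
abbrev Q (n : ℕ) : Type := (Fin n → Bool) → Bool

lemma exists_code : ∃ φ : (Σ n, Q n) → ℕ, Function.Injective φ := exists_injective_nat _

noncomputable def code : (Σ n, Q n) → ℕ := exists_code.choose

lemma code_inj : Function.Injective code := exists_code.choose_spec

open Classical in
/-- The number of points of the `n`-th space in `S`. -/
noncomputable def cnt (n : ℕ) (S : Set ℕ) : ℕ :=
  (Finset.univ.filter fun s : Q n => code ⟨n, s⟩ ∈ S).card

/-- The `n`-th measure. -/
noncomputable def mu (n : ℕ) (S : Set ℕ) : ℝ := cnt n S / Fintype.card (Q n)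

lemma cardQ_pos (n : ℕ) : (0 : ℝ) < Fintype.card (Q n) := by
  exact_mod_cast Fintype.card_pos

lemma mu_nonneg (n : ℕ) (S : Set ℕ) : 0 ≤ mu n S := by
  unfold mu
  positivity

lemma mu_mono' {n : ℕ} {S T : Set ℕ} (h : ∀ s : Q n, code ⟨n, s⟩ ∈ S → code ⟨n, s⟩ ∈ T) :
    mu n S ≤ mu n T := by
  classical
  unfold mu cnt
  refine div_le_div_of_nonneg_right ?_ (cardQ_pos n).le
  exact_mod_cast Finset.card_le_card fun s hs => by
    simp only [Finset.mem_filter, Finset.mem_univ, true_and] at hs ⊢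
    exact h s hs

lemma mu_mono {n : ℕ} {S T : Set ℕ} (h : S ⊆ T) : mu n S ≤ mu n T :=
  mu_mono' fun _ hs => h hs

lemma mu_union (n : ℕ) (S T : Set ℕ) : mu n (S ∪ T) ≤ mu n S + mu n T := by
  classical
  unfold mu cnt
  rw [← add_div]
  refine div_le_div_of_nonneg_right ?_ (cardQ_pos n).le
  have : (Finset.univ.filter fun s : Q n => code ⟨n, s⟩ ∈ S ∪ T).card ≤
      (Finset.univ.filter fun s : Q n => code ⟨n, s⟩ ∈ S).card +
      (Finset.univ.filter fun s : Q n => code ⟨n, s⟩ ∈ T).card := by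
    refine le_trans (Finset.card_le_card fun s hs => ?_) (Finset.card_union_le _ _)
    simpa using hs
  convert (Nat.cast_le (α := ℝ)).2 this using 1
  · congr
  · push_cast
    congr

lemma mu_univ (n : ℕ) : mu n univ = 1 := by
  unfold mu cnt
  simp only [mem_univ, Finset.filter_true, Finset.card_univ]
  exact div_self (cardQ_pos n).ne'

lemma mu_empty (n : ℕ) : mu n ∅ = 0 := by
  unfold mu cnt
  simp

lemma exists_bound (f : ℕ → ℕ) (n : ℕ) : ∃ M, ∀ s : Q n, f (code ⟨n, s⟩) ≤ M :=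
  ⟨Finset.univ.sup fun s : Q n => f (code ⟨n, s⟩), fun s =>
    Finset.le_sup (f := fun s : Q n => f (code ⟨n, s⟩)) (Finset.mem_univ s)⟩

/-- Sets of limit measure zero. -/
def Null (S : Set ℕ) : Prop := Tendsto (fun n => mu n S) atTop (𝓝 0)

lemma Null.mono {S T : Set ℕ} (hT : Null T) (h : S ⊆ T) : Null S :=
  squeeze_zero (fun n => mu_nonneg n S) (fun _ => mu_mono h) hT

lemma Null.union {S T : Set ℕ} (hS : Null S) (hT : Null T) : Null (S ∪ T) :=
  squeeze_zero (fun n => mu_nonneg n _) (fun n => mu_union n S T) (by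
    simpa using Tendsto.add hS hT)

lemma null_empty : Null ∅ := by
  simp only [Null, mu_empty]
  exact tendsto_const_nhds

lemma not_null_univ : ¬ Null univ := by
  simp only [Null, mu_univ]
  intro h
  have := tendsto_nhds_unique h tendsto_const_nhds
  norm_num at this

lemma null_biUnion {ι : Type} (s : Finset ι) (S : ι → Set ℕ) (h : ∀ i ∈ s, Null (S i)) :
    Null (⋃ i ∈ s, S i) := by
  classical
  induction s using Finset.induction_on with
  | empty => simpa using null_empty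
  | insert a s ha ih =>
    rw [Finset.set_biUnion_insert]
    exact (h a (Finset.mem_insert_self _ _)).union
      (ih fun i hi => h i (Finset.mem_insert_of_mem hi))

lemma null_of {S : Set ℕ} (h : ∀ δ > 0, ∀ᶠ n in atTop, mu n S ≤ δ) : Null S := by
  refine tendsto_order.2 ⟨fun a ha => Eventually.of_forall fun n => ha.trans_le (mu_nonneg n S),
    fun a ha => ?_⟩
  filter_upwards [h (a / 2) (by linarith)] with n hn
  linarith

lemma Null.rate {S : Set ℕ} (h : Null S) :
    ∃ r : ℕ → ℕ, ∀ c m, r c ≤ m → mu m S ≤ 1 / ((c : ℝ) + 1) := by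
  have : ∀ c : ℕ, ∃ r, ∀ m, r ≤ m → mu m S ≤ 1 / ((c : ℝ) + 1) := by
    intro c
    have h1 := Tendsto.eventually h (gt_mem_nhds (show (0 : ℝ) < 1 / ((c : ℝ) + 1) by positivity))
    obtain ⟨r, hr⟩ := eventually_atTop.mp h1
    exact ⟨r, fun m hm => (hr m hm).le⟩
  choose r hr using this
  exact ⟨r, hr⟩

open Classical in
lemma sum_mu_ge {α : Type} (T : Finset α) (W : α → Set ℕ) (B : Set ℕ) (k n : ℕ)
    (h : ∀ s : Q n, code ⟨n, s⟩ ∈ B → k ≤ 2 * (T.filter fun X => code ⟨n, s⟩ ∈ W X).card) :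
    k * mu n B ≤ 2 * ∑ X ∈ T, mu n (W X) := by
  unfold mu
  rw [← Finset.sum_div, ← mul_div_assoc, ← mul_div_assoc]
  refine div_le_div_of_nonneg_right ?_ (cardQ_pos n).le
  have : k * cnt n B ≤ 2 * ∑ X ∈ T, cnt n (W X) := by
    unfold cnt
    simp only [Finset.card_filter]
    rw [Finset.sum_comm, Finset.mul_sum, Finset.mul_sum]
    refine Finset.sum_le_sum fun s _ => ?_
    split_ifs with hs
    · rw [mul_one, ← Finset.card_filter]
      exact h s hs
    · simp
  exact_mod_cast this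

/-- The independent sets. -/
def EE (X : ℕ → Bool) : Set ℕ := {x | ∃ n, ∃ s : Q n, code ⟨n, s⟩ = x ∧ s (fun i => X i) = true}

lemma mem_EE (X : ℕ → Bool) (n : ℕ) (s : Q n) :
    code ⟨n, s⟩ ∈ EE X ↔ s (fun i => X i) = true := by
  constructor
  · rintro ⟨n', s', h, h'⟩
    have := code_inj h
    cases this
    exact h'
  · intro h
    exact ⟨n, s, rfl, h⟩

lemma mu_indep (n : ℕ) (T : Finset (ℕ → Bool)) (ε : (ℕ → Bool) → Bool) (S : Set ℕ)
    (hinj : Set.InjOn (fun (X : ℕ → Bool) (i : Fin n) => X i) T)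
    (hS : ∀ s : Q n, code ⟨n, s⟩ ∈ S → ∀ X ∈ T, s (fun i => X i) = ε X) :
    mu n S * 2 ^ T.card ≤ 1 := by
  classical
  let t : (Fin n → Bool) → Finset Bool := fun a =>
    Finset.univ.filter fun b => ∀ X ∈ T, (fun i : Fin n => X i) = a → b = ε X
  let R : Finset (Fin n → Bool) := T.image fun X i => X i
  have h1 : cnt n S ≤ ∏ a, (t a).card := by
    rw [← Fintype.card_piFinset]
    refine Finset.card_le_card fun s hs => ?_
    rw [Finset.mem_filter] at hs
    rw [Fintype.mem_piFinset]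
    intro a
    simp only [t, Finset.mem_filter, Finset.mem_univ, true_and]
    rintro X hX rfl
    exact hS s hs.2 X hX
  have h2 : 2 ^ T.card = ∏ a, if a ∈ R then 2 else 1 := by
    rw [Finset.prod_ite_mem, Finset.univ_inter, Finset.prod_const, Finset.card_image_of_injOn hinj]
  have h3 : cnt n S * 2 ^ T.card ≤ Fintype.card (Q n) := by
    rw [h2]
    refine (Nat.mul_le_mul_right _ h1).trans ?_
    rw [← Finset.prod_mul_distrib, Fintype.card_fun, Fintype.card_bool, ← Finset.card_univ,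
      ← Finset.prod_const]
    refine Finset.prod_le_prod' fun a _ => ?_
    split_ifs with ha
    · obtain ⟨X, hX, hXa⟩ := Finset.mem_image.1 ha
      have : (t a).card ≤ 1 := Finset.card_le_one.2 fun b hb c hc => by
        rw [(Finset.mem_filter.1 hb).2 X hX hXa, (Finset.mem_filter.1 hc).2 X hX hXa]
      omega
    · simpa using Finset.card_le_univ (t a)
  rw [mu, div_mul_eq_mul_div, div_le_one (cardQ_pos n)]
  exact_mod_cast h3

lemma tukeyTop {U : Ultrafilter ℕ} (hU : ∀ S, Null S → S ∉ U) : TukeyTop U := by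
  classical
  let ε : (ℕ → Bool) → Bool := fun X => decide (EE X ∈ U)
  let A : (ℕ → Bool) → Set ℕ := fun X => if EE X ∈ U then EE X else (EE X)ᶜ
  have hA : ∀ X n (s : Q n), code ⟨n, s⟩ ∈ A X → s (fun i => X i) = ε X := by
    intro X n s hs
    by_cases h : EE X ∈ U
    · simp only [A, ε, h, if_true, decide_true] at hs ⊢
      exact (mem_EE X n s).1 hs
    · simp only [A, ε, h, if_false, decide_false] at hs ⊢
      simpa using fun h' => hs ((mem_EE X n s).2 h')
  refine ⟨ℕ → Bool, A, by simp, fun X => ?_, fun I _ hI => ?_⟩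
  · by_cases h : EE X ∈ U
    · simpa only [A, h, if_true] using h
    · simpa only [A, h, if_false] using Ultrafilter.compl_mem_iff_notMem.2 h
  · refine hU _ (null_of fun δ hδ => ?_)
    obtain ⟨r, hr⟩ := exists_pow_lt_of_lt_one hδ (show (1 / 2 : ℝ) < 1 by norm_num)
    obtain ⟨T, hT, hcard⟩ := hI.exists_subset_card_eq r
    have h1 : ∀ᶠ n in atTop, ∀ X ∈ T, ∀ Y ∈ T,
        (fun i : Fin n => X i) = (fun i : Fin n => Y i) → X = Y := by
      rw [eventually_all_finset]
      intro X _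
      rw [eventually_all_finset]
      intro Y _
      by_cases h : X = Y
      · exact Eventually.of_forall fun _ _ => h
      · obtain ⟨x, hx⟩ := Function.ne_iff.1 h
        filter_upwards [eventually_gt_atTop x] with m hm h'
        exact absurd (congrFun h' ⟨x, hm⟩) hx
    filter_upwards [h1] with n hn
    have h2 := mu_indep n T ε (⋂ i ∈ I, A i) (fun X hX Y hY h => hn X hX Y hY h)
      (fun s hs X hX => hA X n s (mem_iInter₂.1 hs X (hT hX)))
    rw [hcard] at h2
    rw [one_div, inv_pow] at hr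
    have h3 : mu n (⋂ i ∈ I, A i) ≤ ((2 : ℝ) ^ r)⁻¹ := by
      rw [← one_div, le_div_iff₀ (by positivity)]
      exact h2
    linarith

/-- the data of an attempt at guessing -/
structure Tri where
  f : ℕ → ℕ
  p : ℕ → ℕ
  A : ℕ → Finset (Set ℕ)

/-- the places where `X` is guessed -/
def SS (τ : Tri) (X : Set ℕ) : Set ℕ := {n | (τ.A n).card ≤ τ.p n ∧ X ∩ Iio (τ.f n) ∈ τ.A n}

/-- the places where the two skies are close -/
def LL (τ : Tri) (g : ℕ → ℕ) : Set ℕ := {n | τ.f n ≤ g (τ.p n)}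

theorem core {Ξ ι : Type} (J : Finset ι) (hJ : J.Nonempty) (T : Set Ξ) (hT : ¬ T.Countable)
    (x : ι → Ξ → Set ℕ) (hx : ∀ i ∈ J, InjOn (x i) T) (τ : ι → Tri) (A : Set ℕ)
    (h : ∀ ξ ∈ T, Null (A ∩ ⋂ i ∈ J, (SS (τ i) (x i ξ))ᶜ)) :
    ∃ g : ℕ → ℕ, Null (A ∩ ⋂ i ∈ J, (LL (τ i) g)ᶜ) := by
  classical
  have hr : ∀ ξ, ∃ r : ℕ → ℕ, ξ ∈ T → ∀ c m, r c ≤ m →
      mu m (A ∩ ⋂ i ∈ J, (SS (τ i) (x i ξ))ᶜ) ≤ 1 / ((c : ℝ) + 1) := by
    intro ξ
    by_cases hξ : ξ ∈ T
    · obtain ⟨r, hr⟩ := (h ξ hξ).rate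
      exact ⟨r, fun _ => hr⟩
    · exact ⟨fun _ => 0, fun h' => absurd h' hξ⟩
  choose r hr using hr
  obtain ⟨Φ, l, R, h1, h2, h3, h4⟩ := tree J hJ T hT x hx r
  refine ⟨fun p => l (p + J.card + 1), null_of fun δ hδ => ?_⟩
  obtain ⟨c, hc⟩ := exists_nat_one_div_lt (show 0 < δ / 2 by linarith)
  filter_upwards [eventually_ge_atTop (R c)] with m hm
  obtain ⟨M, hM⟩ := exists_bound (fun n => ∑ i ∈ J, (τ i).p n) m
  set j := M + J.card + 1 + c + 1 with hj
  have key := sum_mu_ge (Φ j) (fun ξ => A ∩ ⋂ i ∈ J, (SS (τ i) (x i ξ))ᶜ)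
    (A ∩ ⋂ i ∈ J, (LL (τ i) fun p => l (p + J.card + 1))ᶜ) (2 ^ j) m (by
      intro s hs
      set n := code ⟨m, s⟩ with hn
      have b1 : ∀ i ∈ J, ((Φ j).filter fun ξ => n ∈ SS (τ i) (x i ξ)).card * 2 ^ (J.card + 1) ≤
          2 ^ j := by
        intro i hi
        have c1 : (τ i).p n ≤ M :=
          (Finset.single_le_sum (f := fun i => (τ i).p n) (fun _ _ => Nat.zero_le _) hi).trans (hM s)
        have c2 : l ((τ i).p n + J.card + 1) ≤ (τ i).f n := by
          have := mem_iInter₂.mp hs.2 i hi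
          simp only [LL, mem_compl_iff, mem_ofPred_eq, not_le] at this
          exact this.le
        by_cases hcard : ((τ i).A n).card ≤ (τ i).p n
        · have c3 : ((Φ j).filter fun ξ => n ∈ SS (τ i) (x i ξ)).card ≤
              ∑ u ∈ (τ i).A n, ((Φ j).filter fun ξ => x i ξ ∩ Iio ((τ i).f n) = u).card := by
            refine le_trans (Finset.card_le_card fun ξ hξ => ?_) Finset.card_biUnion_le
            rw [Finset.mem_filter] at hξ
            exact Finset.mem_biUnion.mpr ⟨_, hξ.2.2, Finset.mem_filter.mpr ⟨hξ.1, rfl⟩⟩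
          have c4 : (∑ u ∈ (τ i).A n, ((Φ j).filter fun ξ => x i ξ ∩ Iio ((τ i).f n) = u).card) *
              2 ^ ((τ i).p n + J.card + 1) ≤ ((τ i).A n).card * 2 ^ j := by
            rw [Finset.sum_mul, ← smul_eq_mul]
            refine Finset.sum_le_card_nsmul _ _ _ fun u _ => ?_
            exact h4 _ j _ (by omega) c2 i hi u
          have c5 : ((τ i).A n).card ≤ 2 ^ (τ i).p n := hcard.trans Nat.lt_two_pow_self.le
          have c6 := ((Nat.mul_le_mul_right _ c3).trans c4).trans (Nat.mul_le_mul_right _ c5)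
          rw [add_assoc, pow_add, mul_left_comm] at c6
          exact Nat.le_of_mul_le_mul_left c6 (by positivity)
        · rw [Finset.filter_eq_empty_iff.mpr fun ξ _ hξ => hcard hξ.1]
          simp
      have b2 : ((Φ j).filter fun ξ => ¬ n ∈ A ∩ ⋂ i ∈ J, (SS (τ i) (x i ξ))ᶜ).card ≤
          ∑ i ∈ J, ((Φ j).filter fun ξ => n ∈ SS (τ i) (x i ξ)).card := by
        refine le_trans (Finset.card_le_card fun ξ hξ => ?_) Finset.card_biUnion_le
        rw [Finset.mem_filter] at hξ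
        by_contra hcon
        refine hξ.2 ⟨hs.1, mem_iInter₂.mpr fun i hi hm' => hcon ?_⟩
        exact Finset.mem_biUnion.mpr ⟨i, hi, Finset.mem_filter.mpr ⟨hξ.1, hm'⟩⟩
      have b3 : (∑ i ∈ J, ((Φ j).filter fun ξ => n ∈ SS (τ i) (x i ξ)).card) * 2 ^ (J.card + 1) ≤
          J.card * 2 ^ j := by
        rw [Finset.sum_mul, ← smul_eq_mul]
        exact Finset.sum_le_card_nsmul _ _ _ b1
      have b4 : J.card ≤ 2 ^ J.card := Nat.lt_two_pow_self.le
      have b5 := ((Nat.mul_le_mul_right _ b2).trans b3).trans (Nat.mul_le_mul_right _ b4)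
      rw [pow_succ, mul_left_comm] at b5
      have b6 := Nat.le_of_mul_le_mul_left b5 (by positivity)
      have b7 := Finset.card_filter_add_card_filter_not (s := Φ j)
        (fun ξ => n ∈ A ∩ ⋂ i ∈ J, (SS (τ i) (x i ξ))ᶜ)
      rw [h2] at b7
      have b8 : 2 ^ j ≤
          2 * ((Φ j).filter fun ξ => n ∈ A ∩ ⋂ i ∈ J, (SS (τ i) (x i ξ))ᶜ).card := by omega
      convert b8)
  have k2 : ∑ ξ ∈ Φ j, mu m (A ∩ ⋂ i ∈ J, (SS (τ i) (x i ξ))ᶜ) ≤
      (Φ j).card • (1 / ((c : ℝ) + 1)) :=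
    Finset.sum_le_card_nsmul _ _ _ fun ξ hξ =>
      hr ξ (h1 j ξ hξ) c m ((h3 j c (by omega) ξ hξ).trans hm)
  rw [h2, nsmul_eq_mul] at k2
  have k3 : (0 : ℝ) < ((2 ^ j : ℕ) : ℝ) := by positivity
  have k4 : ((2 ^ j : ℕ) : ℝ) * (1 / ((c : ℝ) + 1)) ≤ ((2 ^ j : ℕ) : ℝ) * (δ / 2) :=
    mul_le_mul_of_nonneg_left hc.le k3.le
  refine le_of_mul_le_mul_left ?_ k3
  linarith

end Pool.Agent.H849Z.Tk
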