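import Mathlib
import Pool.Agent.H849Z.Tk.Null

set_option autoImplicit false
set_option linter.unusedSectionVars false
set_option linter.unusedVariables false

/-! The transfinite recursion. -/

open Cardinal Set Filter Topology

namespace Pool.Agent.H849Z.Tk

open Pool.Agent.H849Z.TkDefs

/-- the filter generated by `𝒢` has no null set -/
def Good (𝒢 : Set (Set ℕ)) : Prop := ∀ W ∈ generate 𝒢, ¬ Null W

lemma Good.of_mem {𝒢 𝒢' : Set (Set ℕ)} (h : Good 𝒢) (h' : ∀ W ∈ 𝒢', W ∈ generate 𝒢) :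
    Good 𝒢' := fun W hW => h W ((le_generate_iff.mpr h') hW)

lemma tuple_of_mem {κ : Type} (F : κ → Set ℕ) (P : Set κ) {W : Set ℕ}
    (h : W ∈ generate (F '' P)) :
    ∃ (p : ℕ) (a : Fin p → κ), (∀ i, a i ∈ P) ∧ (⋂ i, F (a i)) ⊆ W := by
  obtain ⟨t, ht, hf, hW⟩ := mem_generate_iff.mp h
  obtain ⟨t', ht', hf', rfl⟩ := Set.Finite.exists_subset_finite_image_eq hf ht
  have := hf'.to_subtype
  let e := (Finite.equivFin t').symm
  refine ⟨_, fun i => (e i : κ), fun i => ht' (e i).2, fun n hn => hW ?_⟩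
  rintro _ ⟨k, hk, rfl⟩
  have h1 : n ∈ F (e (e.symm ⟨k, hk⟩) : κ) := mem_iInter.mp hn (e.symm ⟨k, hk⟩)
  rw [e.apply_symm_apply] at h1
  exact h1

lemma not_good_single {𝒢 : Set (Set ℕ)} {L : Set ℕ} (h : ¬ Good (𝒢 ∪ {L})) :
    ∃ W ∈ generate 𝒢, Null (W ∩ L) := by
  unfold Good at h
  push Not at h
  obtain ⟨W, hW, hN⟩ := h
  rw [generate_union, generate_singleton, mem_inf_iff] at hW
  obtain ⟨s, hs, s', hs', rfl⟩ := hW
  exact ⟨s, hs, hN.mono (inter_subset_inter_right _ hs')⟩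

open Classical in
/-- one step of the recursion -/
noncomputable def step (t : Tri) (𝒢 : Set (Set ℕ)) : Set ℕ → Set ℕ :=
  if h : ∃ g, Good (𝒢 ∪ {LL t g}) then fun _ => LL t h.choose
  else if h' : ∃ E : Set (Set ℕ), #E < 𝔠 ∧ Good (𝒢 ∪ (fun X => (SS t X)ᶜ) '' Eᶜ) then
    fun X => if X ∈ h'.choose then univ else (SS t X)ᶜ
  else fun _ => univ

lemma step_spec (t : Tri) (𝒢 : Set (Set ℕ)) :
    (∃ g, Good (𝒢 ∪ {LL t g}) ∧ ∀ X, step t 𝒢 X = LL t g) ∨
    ((∀ g, ¬ Good (𝒢 ∪ {LL t g})) ∧ (∀ X, (SS t X)ᶜ ⊆ step t 𝒢 X) ∧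
      ((∃ E : Set (Set ℕ), #E < 𝔠 ∧ Good (𝒢 ∪ (fun X => (SS t X)ᶜ) '' Eᶜ)) →
        ∃ E : Set (Set ℕ), #E < 𝔠 ∧ Good (𝒢 ∪ range (step t 𝒢)) ∧
          ∀ X, X ∉ E → step t 𝒢 X = (SS t X)ᶜ)) := by
  classical
  by_cases h : ∃ g, Good (𝒢 ∪ {LL t g})
  · left
    exact ⟨h.choose, h.choose_spec, fun X => by rw [step, dif_pos h]⟩
  · right
    refine ⟨fun g hg => h ⟨g, hg⟩, fun X => ?_, fun h' => ⟨h'.choose, h'.choose_spec.1, ?_, ?_⟩⟩
    · rw [step, dif_neg h]
      split_ifs with h'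
      · dsimp only
        split_ifs
        · exact subset_univ _
        · exact Subset.rfl
      · exact subset_univ _
    · refine h'.choose_spec.2.of_mem ?_
      rintro W (hW | ⟨X, rfl⟩)
      · exact mem_generate_of_mem (Or.inl hW)
      · rw [step, dif_neg h, dif_pos h']
        split_ifs with hX
        · exact univ_mem
        · exact mem_generate_of_mem (Or.inr ⟨X, hX, rfl⟩)
    · intro X hX
      rw [step, dif_neg h, dif_pos h', if_neg hX]

section rec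

variable {B : Type} [LinearOrder B] [WellFoundedLT B]

/-- the generators produced at the stages in `I` -/
def GG (gen : B → Set ℕ → Set ℕ) (I : Set B) : Set (Set ℕ) :=
  (fun q : B × Set ℕ => gen q.1 q.2) '' {q | q.1 ∈ I}

lemma exists_gen (τ : B → Tri) :
    ∃ gen : B → Set ℕ → Set ℕ, ∀ β, gen β = step (τ β) (GG gen (Iio β)) := by
  let F : ∀ β : B, (∀ α, α < β → Set ℕ → Set ℕ) → Set ℕ → Set ℕ := fun β rec =>
    step (τ β) {W | ∃ α, ∃ h : α < β, ∃ X, rec α h X = W}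
  refine ⟨(wellFounded_lt (α := B)).fix F, fun β => ?_⟩
  rw [WellFounded.fix_eq]
  show step (τ β) _ = step (τ β) _
  congr 1
  ext W
  constructor
  · rintro ⟨α, h, X, rfl⟩
    exact ⟨(α, X), h, rfl⟩
  · rintro ⟨⟨α, X⟩, h, rfl⟩
    exact ⟨α, h, X, rfl⟩

lemma good_GG (gen : B → Set ℕ → Set ℕ) (I : Set B)
    (h : ∀ α ∈ I, Good (GG gen (Iio α) ∪ range (gen α))) : Good (GG gen I) := by
  intro W hW hN
  obtain ⟨p, a, ha, hsub⟩ := tuple_of_mem _ _ hW
  rcases isEmpty_or_nonempty (Fin p) with hp | hp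
  · rw [iInter_of_empty] at hsub
    exact not_null_univ (hN.mono hsub)
  · obtain ⟨i0, hi0⟩ := Finite.exists_max fun i => (a i).1
    refine h _ (ha i0) _ (iInter_mem.mpr fun i => mem_generate_of_mem ?_) (hN.mono hsub)
    rcases (hi0 i).lt_or_eq with hlt | heq
    · exact Or.inl ⟨a i, hlt, rfl⟩
    · exact Or.inr ⟨(a i).2, by rw [← heq]⟩

lemma countable_pattern (τ : B → Tri) (gen : B → Set ℕ → Set ℕ) (β : B) (𝒢 : Set (Set ℕ))
    (hG : Good 𝒢) (M : Set (Finset (Set ℕ))) (hM : M.PairwiseDisjoint id)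
    {p : ℕ} (a : Fin p → B)
    (ha : ∀ i, (a i ≠ β ∧ ∃ W ∈ generate 𝒢, ∀ X, gen (a i) X = W) ∨
      ((a i ≠ β → ∀ X, gen (a i) X ∈ generate 𝒢) ∧
        (∀ g, ∃ W ∈ generate 𝒢, Null (W ∩ LL (τ (a i)) g)) ∧
        ∀ X, (SS (τ (a i)) X)ᶜ ⊆ gen (a i) X)) :
    {T ∈ M | ∃ x : Fin p → Set ℕ, (∀ i, a i = β → x i ∈ T) ∧
      Null (⋂ i, gen (a i) (x i))}.Countable := by
  classical
  by_contra hc
  set Ξ := {T ∈ M | ∃ x : Fin p → Set ℕ, (∀ i, a i = β → x i ∈ T) ∧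
      Null (⋂ i, gen (a i) (x i))} with hΞ
  have hx : ∀ T : Finset (Set ℕ), ∃ x : Fin p → Set ℕ, T ∈ Ξ → (∀ i, a i = β → x i ∈ T) ∧
      Null (⋂ i, gen (a i) (x i)) := by
    intro T
    by_cases hT : T ∈ Ξ
    · obtain ⟨x, hx⟩ := hT.2
      exact ⟨x, fun _ => hx⟩
    · exact ⟨fun _ => ∅, fun h => absurd h hT⟩
  choose x hx using hx
  obtain ⟨T', hT', hunc, hth⟩ := thin Finset.univ Ξ hc (fun i T => x T i)
  have hnt : T'.Nontrivial := by
    by_contra h
    rw [not_nontrivial_iff] at h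
    exact hunc h.countable
  let J : Finset (Fin p) := Finset.univ.filter fun i => InjOn (fun T => x T i) T' ∧
    (∀ g, ∃ W ∈ generate 𝒢, Null (W ∩ LL (τ (a i)) g)) ∧ ∀ X, (SS (τ (a i)) X)ᶜ ⊆ gen (a i) X
  have hroot : ∀ i, ∃ W ∈ generate 𝒢, i ∉ J → ∀ T ∈ T', W ⊆ gen (a i) (x T i) := by
    intro i
    rcases ha i with ⟨-, W, hW, hW'⟩ | ⟨h1, h2, h3⟩
    · exact ⟨W, hW, fun _ T _ => by rw [hW']⟩
    · rcases hth i (Finset.mem_univ i) with ⟨y, hy⟩ | hy
      · have hne : a i ≠ β := by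
          intro he
          obtain ⟨T1, hT1, T2, hT2, h12⟩ := hnt
          have d := hM (hT' hT1).1 (hT' hT2).1 h12
          have e1 := (hx T1 (hT' hT1)).1 i he
          have e2 := (hx T2 (hT' hT2)).1 i he
          rw [show x T1 i = y from hy T1 hT1] at e1
          rw [show x T2 i = y from hy T2 hT2] at e2
          exact Finset.disjoint_left.mp d e1 e2
        exact ⟨gen (a i) y, h1 hne y, fun _ T hT => by rw [show x T i = y from hy T hT]⟩
      · exact ⟨univ, univ_mem, fun hi =>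
          absurd (Finset.mem_filter.mpr ⟨Finset.mem_univ i, hy, h2, h3⟩) hi⟩
  choose W hW hW' using hroot
  have hA : (⋂ i, W i) ∈ generate 𝒢 := iInter_mem.mpr hW
  have hN : ∀ T ∈ T', Null ((⋂ i, W i) ∩ ⋂ i ∈ J, (SS (τ (a i)) (x T i))ᶜ) := by
    intro T hT
    refine (hx T (hT' hT)).2.mono fun n hn => mem_iInter.mpr fun i => ?_
    by_cases hi : i ∈ J
    · exact (Finset.mem_filter.mp hi).2.2.2 _ (mem_iInter₂.mp hn.2 i hi)
    · exact hW' i hi T hT (mem_iInter.mp hn.1 i)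
  rcases J.eq_empty_or_nonempty with hJ | hJ
  · obtain ⟨T, hT⟩ := hnt.nonempty
    have := hN T hT
    rw [hJ] at this
    exact hG _ hA (this.mono fun n hn => ⟨hn, by simp⟩)
  · obtain ⟨g, hg⟩ := core J hJ T' hunc (fun i T => x T i)
      (fun i hi => (Finset.mem_filter.mp hi).2.1) (fun i => τ (a i)) _ hN
    have hV : ∀ i, ∃ V ∈ generate 𝒢, i ∈ J → Null (V ∩ LL (τ (a i)) g) := by
      intro i
      by_cases hi : i ∈ J
      · obtain ⟨V, hV, hV'⟩ := (Finset.mem_filter.mp hi).2.2.1 g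
        exact ⟨V, hV, fun _ => hV'⟩
      · exact ⟨univ, univ_mem, fun h => absurd h hi⟩
    choose V hV hV' using hV
    refine hG _ (inter_mem hA (iInter_mem.mpr hV))
      ((hg.union (null_biUnion J _ hV')).mono fun n hn => ?_)
    by_cases hn' : ∀ i ∈ J, n ∉ LL (τ (a i)) g
    · exact Or.inl ⟨hn.1, mem_iInter₂.mpr hn'⟩
    · push Not at hn'
      obtain ⟨i, hi, hi'⟩ := hn'
      exact Or.inr (mem_iUnion₂.mpr ⟨i, hi, mem_iInter.mp hn.2 i, hi'⟩)

lemma exists_E (hB : ∀ β : B, #(Iio β) < 𝔠) (τ : B → Tri) (gen : B → Set ℕ → Set ℕ)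
    (hgen : ∀ β, gen β = step (τ β) (GG gen (Iio β))) (β : B) (hG : Good (GG gen (Iio β)))
    (hno : ∀ g, ¬ Good (GG gen (Iio β) ∪ {LL (τ β) g})) :
    ∃ E : Set (Set ℕ), #E < 𝔠 ∧ Good (GG gen (Iio β) ∪ (fun X => (SS (τ β) X)ᶜ) '' Eᶜ) := by
  classical
  let gen' : B → Set ℕ → Set ℕ := fun α X => if α = β then (SS (τ β) X)ᶜ else gen α X
  let Bad : Finset (Set ℕ) → Prop := fun T =>
    ¬ Good (GG gen (Iio β) ∪ (fun X => (SS (τ β) X)ᶜ) '' (T : Set (Set ℕ)))
  have himg : ∀ Z : Set (Set ℕ), GG gen (Iio β) ∪ (fun X => (SS (τ β) X)ᶜ) '' Z =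
      (fun q : B × Set ℕ => gen' q.1 q.2) '' {q | q.1 < β ∨ (q.1 = β ∧ q.2 ∈ Z)} := by
    intro Z
    ext W
    constructor
    · rintro (⟨q, hq, rfl⟩ | ⟨X, hX, rfl⟩)
      · exact ⟨q, Or.inl hq, if_neg (ne_of_lt hq)⟩
      · exact ⟨(β, X), Or.inr ⟨rfl, hX⟩, if_pos rfl⟩
    · rintro ⟨q, hq | hq, rfl⟩
      · exact Or.inl ⟨q, hq, (if_neg (ne_of_lt hq)).symm⟩
      · exact Or.inr ⟨q.2, hq.2, (if_pos hq.1).symm⟩
  obtain ⟨M, hM⟩ := zorn_subset {M : Set (Finset (Set ℕ)) | (∀ T ∈ M, Bad T) ∧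
      M.PairwiseDisjoint id} (by
    intro c hc hch
    refine ⟨⋃₀ c, ⟨?_, ?_⟩, fun s hs => subset_sUnion_of_mem hs⟩
    · rintro T ⟨s, hs, hT⟩
      exact (hc hs).1 T hT
    · rintro T1 ⟨s1, hs1, hT1⟩ T2 ⟨s2, hs2, hT2⟩ hne
      rcases hch.total hs1 hs2 with h | h
      · exact (hc hs2).2 (h hT1) hT2 hne
      · exact (hc hs1).2 hT1 (h hT2) hne)
  let P := Σ p : ℕ, Fin p → Iic β
  let Ξ : P → Set (Finset (Set ℕ)) := fun pat =>
    {T ∈ M | ∃ x : Fin pat.1 → Set ℕ, (∀ i, (pat.2 i : B) = β → x i ∈ T) ∧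
      Null (⋂ i, gen' (pat.2 i) (x i))}
  have hΞ : ∀ pat, (Ξ pat).Countable := by
    intro pat
    refine countable_pattern τ gen' β _ hG M hM.prop.2 (fun i => (pat.2 i : B)) fun i => ?_
    rcases (show (pat.2 i : B) ≤ β from (pat.2 i).2).lt_or_eq with hlt | heq
    · have hne := ne_of_lt hlt
      have hmem : ∀ X, gen' (pat.2 i) X ∈ generate (GG gen (Iio β)) := fun X =>
        mem_generate_of_mem ⟨((pat.2 i : B), X), hlt, (if_neg hne).symm⟩
      rcases step_spec (τ (pat.2 i)) (GG gen (Iio (pat.2 i : B))) with ⟨g, -, hg⟩ | ⟨h1, h2, -⟩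
      · left
        rw [← hgen] at hg
        have hg' : ∀ X, gen' (pat.2 i) X = LL (τ (pat.2 i)) g := fun X =>
          (if_neg hne).trans (hg X)
        exact ⟨hne, _, hmem ∅, fun X => (hg' X).trans (hg' ∅).symm⟩
      · right
        rw [← hgen] at h2
        refine ⟨fun _ => hmem, fun g => ?_, fun X => (h2 X).trans (if_neg hne).symm.subset⟩
        obtain ⟨W, hW, hN⟩ := not_good_single (h1 g)
        refine ⟨W, (le_generate_iff.mpr ?_) hW, hN⟩
        rintro _ ⟨q, hq, rfl⟩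
        exact mem_generate_of_mem ⟨q, lt_trans hq hlt, rfl⟩
    · right
      refine ⟨fun h => absurd heq h, fun g => ?_, fun X => ?_⟩
      · rw [heq]
        exact not_good_single (hno g)
      · rw [heq]
        exact (if_pos rfl).symm.subset
  let E : Set (Set ℕ) := ⋃ pat, ⋃ T ∈ Ξ pat, (T : Set (Set ℕ))
  have hME : ∀ T ∈ M, ∀ X ∈ T, X ∈ E := by
    intro T hT X hX
    have hb := hM.prop.1 T hT
    simp only [Bad, himg, Good] at hb
    push Not at hb
    obtain ⟨W, hW, hN⟩ := hb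
    obtain ⟨p, a, ha, hsub⟩ := tuple_of_mem _ _ hW
    have hle : ∀ i, (a i).1 ≤ β := fun i => (ha i).elim le_of_lt fun h => h.1.le
    refine mem_iUnion.mpr ⟨⟨p, fun i => ⟨(a i).1, hle i⟩⟩, mem_iUnion₂.mpr ⟨T, ⟨hT, ?_⟩, hX⟩⟩
    refine ⟨fun i => (a i).2, fun i hi => ?_, hN.mono hsub⟩
    rcases ha i with h | h
    · exact absurd hi (ne_of_lt h)
    · exact h.2
  refine ⟨E, ?_, ?_⟩
  · have h1 : #P < 𝔠 := by
      rw [← Cardinal.mk_congr (List.equivSigmaTuple (α := Iic β))]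
      refine (mk_list_le_max _).trans_lt (max_lt aleph0_lt_continuum ?_)
      rw [← Iio_insert]
      refine (mk_insert_le).trans_lt (add_lt_of_lt aleph0_le_continuum (hB β) ?_)
      exact one_lt_aleph0.trans aleph0_lt_continuum
    refine (mk_iUnion_le _).trans_lt (mul_lt_of_lt aleph0_le_continuum h1 ?_)
    refine lt_of_le_of_lt (ciSup_le' fun pat => ?_) aleph0_lt_continuum
    exact le_aleph0_iff_set_countable.mpr
      ((hΞ pat).biUnion fun T _ => T.countable_toSet)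
  · intro W hW hN
    rw [himg] at hW
    obtain ⟨p, a, ha, hsub⟩ := tuple_of_mem _ _ hW
    let T : Finset (Set ℕ) := (Finset.univ.filter fun i => (a i).1 = β).image fun i => (a i).2
    have hTE : ∀ X ∈ T, X ∉ E := by
      intro X hX
      obtain ⟨i, hi, rfl⟩ := Finset.mem_image.mp hX
      rcases ha i with h | h
      · exact absurd (Finset.mem_filter.mp hi).2 (ne_of_lt h)
      · exact h.2
    have hbad : Bad T := by
      intro hgood
      rw [himg] at hgood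
      refine hgood _ (iInter_mem.mpr fun i => mem_generate_of_mem ⟨a i, ?_, rfl⟩) (hN.mono hsub)
      rcases ha i with h | h
      · exact Or.inl h
      · exact Or.inr ⟨h.1, Finset.mem_coe.mpr (Finset.mem_image_of_mem _
          (Finset.mem_filter.mpr ⟨Finset.mem_univ i, h.1⟩))⟩
    have hTM : T ∈ M := by
      refine hM.mem_of_prop_insert ⟨?_, ?_⟩
      · rintro T' (rfl | hT')
        · exact hbad
        · exact hM.prop.1 T' hT'
      · refine hM.prop.2.insert fun T' hT' _ => ?_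
        exact Finset.disjoint_left.mpr fun X hX hX' => hTE X hX (hME T' hT' X hX')
    have hT0 : T = ∅ := Finset.eq_empty_of_forall_notMem fun X hX => hTE X hX (hME T hTM X hX)
    apply hbad
    rw [hT0]
    simpa using hG

lemma good_all (hB : ∀ β : B, #(Iio β) < 𝔠) (τ : B → Tri) (gen : B → Set ℕ → Set ℕ)
    (hgen : ∀ β, gen β = step (τ β) (GG gen (Iio β))) (β : B) :
    Good (GG gen (Iio β) ∪ range (gen β)) ∧ ((∃ g, ∀ X, gen β X = LL (τ β) g) ∨
      ∃ E : Set (Set ℕ), #E < 𝔠 ∧ ∀ X, X ∉ E → gen β X = (SS (τ β) X)ᶜ) := by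
  induction β using WellFoundedLT.induction with
  | ind β ih =>
    have hG : Good (GG gen (Iio β)) := good_GG gen _ fun α hα => (ih α hα).1
    rcases step_spec (τ β) (GG gen (Iio β)) with ⟨g, h1, hg⟩ | ⟨h1, -, h3⟩
    · rw [← hgen] at hg
      refine ⟨h1.of_mem ?_, Or.inl ⟨g, hg⟩⟩
      rintro W (hW | ⟨X, rfl⟩)
      · exact mem_generate_of_mem (Or.inl hW)
      · exact mem_generate_of_mem (Or.inr (hg X))
    · obtain ⟨E, hE, h4, h5⟩ := h3 (exists_E hB τ gen hgen β hG h1)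
      rw [← hgen] at h4 h5
      exact ⟨h4, Or.inr ⟨E, hE, h5⟩⟩

end rec

lemma mk_Tri : #Tri ≤ 𝔠 := by
  have h : #Tri ≤ #((ℕ → ℕ) × (ℕ → ℕ) × (ℕ → Finset (Set ℕ))) := by
    refine mk_le_of_injective (f := fun t => (t.f, t.p, t.A)) ?_
    rintro ⟨a, b, c⟩ ⟨a', b', c'⟩ h
    simp only [Prod.mk.injEq] at h
    obtain ⟨rfl, rfl, rfl⟩ := h
    rfl
  refine h.trans (le_of_eq ?_)
  simp

/-- the filter of conull sets -/
def conull : Filter ℕ where
  sets := {S | Null Sᶜ}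
  univ_sets := by simpa using null_empty
  sets_of_superset := fun hS h => Null.mono hS (compl_subset_compl.2 h)
  inter_sets := fun hS hT => by
    rw [mem_ofPred_eq, compl_inter]
    exact Null.union hS hT

theorem main : ∃ U : Ultrafilter ℕ, TukeyTop U ∧ ¬ DiamondMinus U := by
  classical
  obtain ⟨_, _, hord⟩ := Cardinal.exists_ord_eq_type_lt Tri
  have hB : ∀ β : Tri, #(Iio β) < 𝔠 := fun β => (mk_Iio_lt β hord).trans_le mk_Tri
  obtain ⟨gen, hgen⟩ := exists_gen (B := Tri) id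
  have hall := good_all hB id gen hgen
  have hG : Good (GG gen univ) := good_GG gen _ fun α _ => (hall α).1
  have hne : (generate (GG gen univ) ⊓ conull).NeBot := by
    rw [inf_neBot_iff]
    intro s hs s' hs'
    by_contra hc
    rw [not_nonempty_iff_eq_empty] at hc
    refine hG s hs (Null.mono (show Null s'ᶜ from hs') fun n hn hn' => ?_)
    have : n ∈ s ∩ s' := ⟨hn, hn'⟩
    rw [hc] at this
    exact this
  let U := Ultrafilter.of (generate (GG gen univ) ⊓ conull)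
  have hU : (U : Filter ℕ) ≤ generate (GG gen univ) ⊓ conull := Ultrafilter.of_le _
  have hU1 : ∀ β X, gen β X ∈ U := fun β X =>
    (hU.trans inf_le_left) (mem_generate_of_mem ⟨(β, X), mem_univ _, rfl⟩)
  refine ⟨U, tukeyTop fun S hS => ?_, ?_⟩
  · refine Ultrafilter.compl_mem_iff_notMem.1 ((hU.trans inf_le_right) ?_)
    show Null Sᶜᶜ
    rwa [compl_compl]
  · rintro ⟨f, π, A, hA, hg, hcard⟩
    have hfin : ∀ n, (A n).Finite := fun n => finite_of_encard_le_coe (hA n).2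
    let t : Tri := ⟨f, π, fun n => (hfin n).toFinset⟩
    rcases (hall t).2 with ⟨g, h1⟩ | ⟨E, hE, h1⟩
    · have a1 := hU1 t ∅
      rw [h1] at a1
      obtain ⟨n, hn1, hn2⟩ := Ultrafilter.nonempty_of_mem (inter_mem a1 (hg g))
      exact absurd (show f n ≤ g (π n) from hn1) (not_le.mpr hn2)
    · refine absurd (hcard ▸ mk_le_mk_of_subset fun X hX => ?_) (not_le.mpr hE)
      by_contra hXE
      have a1 := hU1 t X
      rw [h1 X hXE] at a1
      obtain ⟨n, hn1, hn2⟩ := Ultrafilter.nonempty_of_mem (inter_mem a1 hX)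
      refine hn1 ⟨?_, (Finite.mem_toFinset _).mpr hn2⟩
      have := (hA n).2
      rw [(hfin n).encard_eq_coe_toFinset_card] at this
      exact_mod_cast this

end Pool.Agent.H849Z.Tk
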